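import Mathlib
import Pool.Agent.H200G.AllNef
import Pool.Agent.Y939.NC.Reg
import Pool.Agent.Y939.NC.Std
import Pool.Agent.TH167.SH.Fam
import Pool.Agent.TH167.SH.Conv

set_option autoImplicit false

/-!
# Negative curves and unions of families of multiplicities, with rare values at every scale

Multiplicities `w` are a UNION OF FAMILIES (`Pool.Agent.H200G.Families`) if the points can be divided into
groups, of any number and any sizes, such that in every group the sum of the squares of the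
multiplicities is at least `2 ^ 29` times the number of the different nonzero values times the square
of the largest one. In every group there may be many values which occur only once. The number of the
groups and the ratios of the multiplicities are arbitrary. (`Pool.Agent.H200G.FamiliesR`: the same for
real numbers, with `2 ^ 30`.)
`Fam d w` (`Pool.Agent.H200G.Fam`): `w` is a union of families; or there is a union `v ≤ w` of families
with `(d + 2).choose 2 ≤ ∑ (v i + 1).choose 2`; or a union `v` of families on at least these points with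
`w ≤ v` and `∑ (v i + 1).choose 2 ≤ (d + 2).choose 2`.

Let `P 1, …, P s`, `s ≥ 4`, be very general points of the complex projective plane.

(1) Every plane curve (irreducible or not) of degree `e` with multiplicities at least `m i` at the `P i`
satisfies `∑_T m i ^ 2 ≤ e ^ 2` for all sets `T` of points such that the `m i`, `i ∈ T`, are a union of
families.

(2) Let `C` be an irreducible curve with `C ^ 2 < 0` which is not a `(-1)`-curve, of class `(d; w)`. Then
not `Fam d w`, and finitely many quadratic transformations carry `C` to an irreducible curve of a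
standard class `(d1; w1)`, `d1 ≤ d`, `w1 i ≤ w i`, `K C > 0`, and not `Fam d1 w1`.
-/

namespace Pool.Agent.Results.MP_d3e5c7_ag.FamiliesNegative

open MvPolynomial Pool.Agent.TH167 Pool.Agent.TH167.SHDefs Pool.Agent.Y939.NC Pool.Agent.H200W
open Pool.Agent.H200G
open Pool.Agent.Y536.SH (Standard)
open Pool.Agent.Results.MP_309968_ag.BoundaryRays (MultGE)
open Pool.Agent.Results.MP_309968_ag.SexticDistance (mult_iff)

theorem no_curve {s : ℕ} {P : Fin s → Fin 2 → ℂ} {d : ℕ} {w : Fin s → ℕ}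
    {C : MvPolynomial (Fin 3) ℂ} (h0 : C ≠ 0)
    (h1 : C ∈ W609.CR.VS (fun j => W609.CR.aff (P j)) w d) (h8 : SH.chi d w ≤ 0)
    (h6 : Pool.Agent.H932R3.ExpDim ℂ w P d) : False := by
  rw [Pool.Agent.TH442.NF.expDim_iff] at h6
  have hfin := W609.CR.vs_fin (fun j => W609.CR.aff (P j)) w d
  have hpos : 0 < Module.finrank ℂ ↥(W609.CR.VS (fun j => W609.CR.aff (P j)) w d) :=
    Module.finrank_pos_iff.2 ⟨⟨C, h1⟩, 0, fun h7 => h0 (congrArg Subtype.val h7)⟩
  rw [max_eq_left h8] at h6
  omega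

/-- (1) The self-intersection of a curve is nonnegative on unions of families. (2) Negative curves
and their standard forms are not unions of families. -/
theorem result (s : ℕ) (hs : 4 ≤ s) :
    ∃ Z : ℕ → MvPolynomial (Fin s × Fin 2) ℂ, (∀ n, Z n ≠ 0) ∧
      ∀ P : Fin s → Fin 2 → ℂ,
        (∀ n, MvPolynomial.eval (fun ij : Fin s × Fin 2 => P ij.1 ij.2) (Z n) ≠ 0) →
        (∀ (F : MvPolynomial (Fin 3) ℂ) (e : ℕ) (m : Fin s → ℕ), F.IsHomogeneous e → F ≠ 0 →
          (∀ i, MultGE (P i) F (m i)) → ∀ T : Finset (Fin s),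
            FamiliesR (fun i => if i ∈ T then (m i : ℝ) else 0) →
            ∑ i ∈ T, m i ^ 2 ≤ e ^ 2) ∧
        ∀ (d : ℕ) (w : Fin s → ℕ) (C : MvPolynomial (Fin 3) ℂ),
          Curve P C d w → inter d w d w < 0 → ¬ MinusOne P C d w → ¬ Fam d w ∧
          ∃ (P1 : Fin s → Fin 2 → ℂ) (d1 : ℕ) (w1 : Fin s → ℕ) (C1 : MvPolynomial (Fin 3) ℂ),
            (∀ n, MvPolynomial.eval (fun ij : Fin s × Fin 2 => P1 ij.1 ij.2) (Z n) ≠ 0) ∧
            Curve P1 C1 d1 w1 ∧ Relation.ReflTransGen Quadratic (d, w) (d1, w1) ∧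
            Standard d1 w1 ∧ d1 ≤ d ∧ (∀ i, w1 i ≤ w i) ∧
            inter d1 w1 d1 w1 = inter d w d w ∧ interK d1 w1 = interK d w ∧
            0 < interK d w ∧ ¬ Fam d1 w1 := by
  classical
  obtain ⟨r, rfl⟩ : ∃ r, s = r + 4 := ⟨s - 4, by omega⟩
  obtain ⟨Z, hZ, h⟩ := SH.exists_fam (Fin (r + 4) × Fin 2)
  refine ⟨Z, hZ, fun P hP0 => ?_⟩
  have hP := (h _).1 hP0
  refine ⟨fun F e m hFe hF hm T hT => ?_, fun d w C hC hneg hne => ?_⟩
  · obtain ⟨Q, hQ⟩ : ∃ Q : ℝ, Q = ∑ i ∈ T, (m i : ℝ) ^ 2 := ⟨_, rfl⟩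
    have hQ0 : 0 ≤ Q := by rw [hQ]; positivity
    have e1 : ∑ i, (if i ∈ T then (m i : ℝ) else 0) ^ 2 = Q := by
      rw [hQ, ← Finset.sum_filter_add_sum_filter_not Finset.univ (fun i => i ∈ T)]
      rw [Finset.sum_congr (g := fun i => (m i : ℝ) ^ 2) rfl (fun i hi => by
        rw [if_pos (Finset.mem_filter.1 hi).2])]
      rw [Finset.sum_eq_zero (s := Finset.univ.filter fun i => ¬ (i ∈ T)) (fun i hi => by
        rw [if_neg (Finset.mem_filter.1 hi).2]; norm_num), add_zero]
      congr 1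
      ext i
      simp
    have e2 : ∑ i, (if i ∈ T then (m i : ℝ) else 0) * (m i : ℝ) = Q := by
      rw [← e1]
      refine Finset.sum_congr rfl fun i _ => ?_
      split_ifs <;> ring
    have h1 := families_nef hP (Real.sqrt_nonneg Q) hT (by rw [Real.sq_sqrt hQ0, e1]) F e m hF hFe
      ((mult_iff hFe m).1 hm)
    rw [e2] at h1
    have h2 : √Q * √Q = Q := Real.mul_self_sqrt hQ0
    have h3 : Q ≤ (e : ℝ) ^ 2 := by
      rcases (Real.sqrt_nonneg Q).eq_or_lt with h4 | h4
      · rw [← h4, mul_zero] at h2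
        rw [← h2]
        positivity
      · have h5 : √Q * √Q ≤ √Q * e := by rw [h2]; exact h1
        have h6 := le_of_mul_le_mul_left h5 h4
        calc Q = √Q ^ 2 := by rw [pow_two, h2]
          _ ≤ _ := pow_le_pow_left₀ h4.le h6 2
    rw [hQ] at h3
    exact_mod_cast h3
  · obtain ⟨h1, h2, h3⟩ := SH.curve_iff.1 hC
    have hne' : ¬ (SH.ip d w d w = -1 ∧ SH.kk d w = 1) := fun h0 =>
      hne ⟨hC, by rw [SH.inter_eq, h0.1], by rw [SH.interK_eq, h0.2]⟩
    obtain ⟨M, hM⟩ : ∃ M, ∀ j, w j ≤ M := ⟨∑ j, w j, fun j =>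
      Finset.single_le_sum (fun _ _ => Nat.zero_le _) (Finset.mem_univ j)⟩
    have hw : SH.Few M d w := by
      left
      rw [Finset.filter_false_of_mem fun j _ => not_lt.2 (hM j)]
      simp
    obtain ⟨P1, d1, w1, C1, a1, a2, a3, a4, a5, a6, a7, a8⟩ :=
      Pool.Agent.Y939.NC.std_irr d P hP w hw C h1 h2 h3 hne'
    obtain ⟨c1, c2, c3⟩ := SH.quad_inv a5
    simp only at c1 c2 c3
    rw [SH.inter_eq] at hneg
    have hwd : ∀ j, w1 j ≤ d1 := fun j => SH.van_le a2.ne_zero a3 (a4 j).1
    have hK : SH.kk d1 w1 < 0 := by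
      by_contra hcon
      push Not at hcon
      have h4 : 0 ≤ SH.kk d1 w1 := hcon
      rw [SH.kk_cast] at h4
      have h5 := SH.red_ip a6 hwd (by omega)
      omega
    have h7 := SH.two_chi d1 w1
    have h8 : SH.chi d1 w1 ≤ 0 := by omega
    have h7' := SH.two_chi d w
    have h8' : SH.chi d w ≤ 0 := by omega
    refine ⟨fun hcon => no_curve h1.ne_zero ((SH.mem_VS _ _ _ _).2 ⟨h2, fun j => (h3 j).1⟩) h8'
      (fam_all hcon hP), P1, d1, w1, C1, (h _).2 a1, SH.curve_iff.2 ⟨a2, a3, a4⟩,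
      SH.chain_conv a5, a6, a7, a8,
      by rw [SH.inter_eq, SH.inter_eq, c3], by rw [SH.interK_eq, SH.interK_eq, c2], ?_,
      fun hcon => no_curve a2.ne_zero ((SH.mem_VS _ _ _ _).2 ⟨a3, fun j => (a4 j).1⟩) h8
        (fam_all hcon a1)⟩
    rw [SH.interK_eq, ← c2]
    omega

end Pool.Agent.Results.MP_d3e5c7_ag.FamiliesNegative
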