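import Mathlib
import Pool.Agent.H200G.AllNef
import Pool.Agent.H200G.Core
import Pool.Agent.Y939.NC.Reg
import Pool.Agent.Y939.NC.Std
import Pool.Agent.TH167.SH.Fam
import Pool.Agent.TH167.SH.Conv

set_option autoImplicit false

/-!
# Negative curves, arbitrary large multiplicities and unions of families

Arbitrary multiplicities at some points, and a union of families at the others. The multiplicities at a
set `S` of points are a UNION OF FAMILIES (`Pool.Agent.H200G.Un`) if the points of `S` can be divided into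
groups, of any number and any sizes, such that in every group the sum of the squares of the multiplicities
is at least `2 ^ 29` times the number of the different nonzero values times the square of the largest one.
`CoreG d w` (`Pool.Agent.H200G.CoreG`): for some `μ` and some set `C` of points, which may have ARBITRARY large
multiplicities, all other multiplicities are at most `μ` and a union of families, and one of the following
holds:
* (`WideG`) `C` has three points, with multiplicities `w (p 2) ≤ w (p 1) ≤ w (p 0)`,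
  `w (p 0) + w (p 1) + w (p 2) ≤ d` and `w (p 0) + 2 ^ 28 (μ + 1) ≤ d`;
* (`ChainG`) `C` consists of a point `p` and a set `A` of points on a chain of curves of degrees
  `E 0 ≥ E 1 ≥ … ≥ 1`, i.e. with `w i ≤ m` for `i ∈ A`,
  `w p + (E 0 + … + E (m - 1)) + 2 ^ 34 (μ + 1) E 0 ≤ d`, and for `k < m`, if `k = 0` or `E k < E (k - 1)`,
  `∑_A max (w i - k) 0 + E k (E 0 + … + E (k - 1)) + 2 ^ 38 (μ + 1) E k (E 0 + E k g k) ≤ E k d`, where
  `g k` is the number of the `i ∈ A` with `k < w i ≤ k + 2 ^ 33 (μ + 1)`;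
* (`PackG`) for some `0 < η ≤ 1` and `m1`: `w i ≤ m1` on `C`,
  `∑_C (w i + 2 ^ 24 (μ + 1) / η) ^ 2 + (7 m1 + 2 ^ 27 (μ + 1) / η) d ≤ d ^ 2` and
  `∑_C w i (w i + 1) ≤ (1 - η) d ^ 2`.
`CoreFam d w` (`Pool.Agent.H200G.CoreFam`): `CoreG d w`; or there is `(e; v)` with `CoreG e v`, `e ≥ d`, `v ≤ w`
and `(e + 2).choose 2 ≤ ∑ (v i + 1).choose 2`; or there is `(e; v)` with `CoreG e v`, `e ≤ d`, on at least
these points, with `w ≤ v` and `∑ (v i + 1).choose 2 ≤ (e + 2).choose 2`. All constants are explicit; there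
is no condition on the sum of the squares in comparison to `d ^ 2`.

Let `P 1, …, P s`, `s ≥ 4`, be very general points of the complex projective plane. Let `C` be an
irreducible curve with `C ^ 2 < 0` which is not a `(-1)`-curve, of class `(d; w)`. Then not `CoreFam d w`, and
finitely many quadratic transformations carry `C` to an irreducible curve of a standard class `(d1; w1)`,
`d1 ≤ d`, `w1 i ≤ w i`, `K C > 0`, and not `CoreFam d1 w1`.
-/

namespace Pool.Agent.Results.MP_d3e5c7_ag.NegativeCoreFamilies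

open MvPolynomial Pool.Agent.TH167 Pool.Agent.TH167.SHDefs Pool.Agent.Y939.NC Pool.Agent.H200W
open Pool.Agent.H200G
open Pool.Agent.Y536.SH (Standard)
open Pool.Agent.Results.MP_309968_ag.BoundaryRays (MultGE)
open Pool.Agent.Results.MP_309968_ag.SexticDistance (mult_iff)

theorem no_curve {s : ℕ} {P : Fin s → Fin 2 → ℂ} {d : ℕ} {w : Fin s → ℕ}
    {C : MvPolynomial (Fin 3) ℂ} (h0 : C ≠ 0)
    (h1 : C ∈ W609.CR.VS (fun j => W609.CR.aff (P j)) w d) (h8 : SH.chi d w ≤ 0)
    (h6 : Pool.Agent.H932R3.ExpDim ℂ w P d) : False := by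
  rw [Pool.Agent.TH442.NF.expDim_iff] at h6
  have hfin := W609.CR.vs_fin (fun j => W609.CR.aff (P j)) w d
  have hpos : 0 < Module.finrank ℂ ↥(W609.CR.VS (fun j => W609.CR.aff (P j)) w d) :=
    Module.finrank_pos_iff.2 ⟨⟨C, h1⟩, 0, fun h7 => h0 (congrArg Subtype.val h7)⟩
  rw [max_eq_left h8] at h6
  omega

/-- Negative curves and their standard forms do not consist of a core and a union of families. -/
theorem result (s : ℕ) (hs : 4 ≤ s) :
    ∃ Z : ℕ → MvPolynomial (Fin s × Fin 2) ℂ, (∀ n, Z n ≠ 0) ∧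
      ∀ P : Fin s → Fin 2 → ℂ,
        (∀ n, MvPolynomial.eval (fun ij : Fin s × Fin 2 => P ij.1 ij.2) (Z n) ≠ 0) →
        ∀ (d : ℕ) (w : Fin s → ℕ) (C : MvPolynomial (Fin 3) ℂ),
          Curve P C d w → inter d w d w < 0 → ¬ MinusOne P C d w → ¬ CoreFam d w ∧
          ∃ (P1 : Fin s → Fin 2 → ℂ) (d1 : ℕ) (w1 : Fin s → ℕ) (C1 : MvPolynomial (Fin 3) ℂ),
            (∀ n, MvPolynomial.eval (fun ij : Fin s × Fin 2 => P1 ij.1 ij.2) (Z n) ≠ 0) ∧
            Curve P1 C1 d1 w1 ∧ Relation.ReflTransGen Quadratic (d, w) (d1, w1) ∧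
            Standard d1 w1 ∧ d1 ≤ d ∧ (∀ i, w1 i ≤ w i) ∧
            inter d1 w1 d1 w1 = inter d w d w ∧ interK d1 w1 = interK d w ∧
            0 < interK d w ∧ ¬ CoreFam d1 w1 := by
  classical
  obtain ⟨r, rfl⟩ : ∃ r, s = r + 4 := ⟨s - 4, by omega⟩
  obtain ⟨Z, hZ, h⟩ := SH.exists_fam (Fin (r + 4) × Fin 2)
  refine ⟨Z, hZ, fun P hP0 => ?_⟩
  have hP := (h _).1 hP0
  intro d w C hC hneg hne
  obtain ⟨h1, h2, h3⟩ := SH.curve_iff.1 hC
  have hne' : ¬ (SH.ip d w d w = -1 ∧ SH.kk d w = 1) := fun h0 =>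
    hne ⟨hC, by rw [SH.inter_eq, h0.1], by rw [SH.interK_eq, h0.2]⟩
  obtain ⟨M, hM⟩ : ∃ M, ∀ j, w j ≤ M := ⟨∑ j, w j, fun j =>
    Finset.single_le_sum (fun _ _ => Nat.zero_le _) (Finset.mem_univ j)⟩
  have hw : SH.Few M d w := by
    left
    rw [Finset.filter_false_of_mem fun j _ => not_lt.2 (hM j)]
    simp
  obtain ⟨P1, d1, w1, C1, a1, a2, a3, a4, a5, a6, a7, a8⟩ :=
    Pool.Agent.Y939.NC.std_irr d P hP w hw C h1 h2 h3 hne'
  obtain ⟨c1, c2, c3⟩ := SH.quad_inv a5
  simp only at c1 c2 c3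
  rw [SH.inter_eq] at hneg
  have hwd : ∀ j, w1 j ≤ d1 := fun j => SH.van_le a2.ne_zero a3 (a4 j).1
  have hK : SH.kk d1 w1 < 0 := by
    by_contra hcon
    push Not at hcon
    have h4 : 0 ≤ SH.kk d1 w1 := hcon
    rw [SH.kk_cast] at h4
    have h5 := SH.red_ip a6 hwd (by omega)
    omega
  have h7 := SH.two_chi d1 w1
  have h8 : SH.chi d1 w1 ≤ 0 := by omega
  have h7' := SH.two_chi d w
  have h8' : SH.chi d w ≤ 0 := by omega
  refine ⟨fun hcon => no_curve h1.ne_zero ((SH.mem_VS _ _ _ _).2 ⟨h2, fun j => (h3 j).1⟩) h8'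
    (coreFam_all hcon hP), P1, d1, w1, C1, (h _).2 a1, SH.curve_iff.2 ⟨a2, a3, a4⟩,
    SH.chain_conv a5, a6, a7, a8,
    by rw [SH.inter_eq, SH.inter_eq, c3], by rw [SH.interK_eq, SH.interK_eq, c2], ?_,
    fun hcon => no_curve a2.ne_zero ((SH.mem_VS _ _ _ _).2 ⟨a3, fun j => (a4 j).1⟩) h8
      (coreFam_all hcon a1)⟩
  rw [SH.interK_eq, ← c2]
  omega

end Pool.Agent.Results.MP_d3e5c7_ag.NegativeCoreFamilies
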