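import Mathlib
import Pool.Agent.H200M.Near
import Pool.Agent.H200M.Nef2
import Pool.Agent.Y939.NC.Reg
import Pool.Agent.Y939.NC.Std
import Pool.Agent.TH167.SH.Fam
import Pool.Agent.TH167.SH.Conv

set_option autoImplicit false

/-!
# Negative curves are critical outside three points

The real class `c H - ∑ x_i E_i`, `x_i ≥ 0`, satisfies `Pool.Agent.H200M.Room3 g ε` if there are three points
`p` with ARBITRARY coefficients `x (p 2) ≤ x (p 1) ≤ x (p 0)`, `x (p 0) + x (p 1) + x (p 2) ≤ c`,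
`x (p 0) < c`, the others are at most `g (c - x (p 0))`, and, with `V = c ^ 2 - ∑_j x (p j) ^ 2`,
* the coefficients at the other points have `∑ x_i ^ 2 ≤ (1 - ε) V`; or
* for some `M` all nonzero values `≤ M` at the other points are taken at least `2 ^ 29` times there, or the
  number `k` of the values `≤ M` satisfies `(k + 1) M ^ 2 ≤ g V`; and the coefficients `≤ g M` at the other
  points have `∑ x_i ^ 2 ≥ ε V`.

A class `(d; w)` is CRITICAL OUTSIDE THREE POINTS (`Pool.Agent.H200M.Tight3 c`, for a function `c` with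
positive values) if for every `ε > 0` and all three points `p` with arbitrary multiplicities
`w (p 2) ≤ w (p 1) ≤ w (p 0)`, `w (p 0) + w (p 1) + w (p 2) ≤ d`, such that `w i ≤ c(ε) (d - w (p 0))` for
all other points `i`, the volume `X = (d + 1) (d + 2) - ∑_j w (p j) (w (p j) + 1)` left by the three points is
filled by the large ones of the other multiplicities up to the part `ε` (`Pool.Agent.H200M.Tight`): all other
multiplicities together have `|X - ∑ w i (w i + 1)| < ε X`; and
for every `μ` such that all nonzero values `≤ μ` at the other points are taken at least `2 ^ 29` times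
there, or the number `k` of the values `≤ μ` satisfies `(k + 1) μ ^ 2 ≤ c(ε) X`, the other
multiplicities `> c(ε) μ` have `∑ w i ^ 2 > (1 - ε) X` and those `≤ c(ε) μ` have `∑ w i ^ 2 < ε X`.
(`μ = a X ^ (1 / 3)` with a small constant `a` is always such a number, `Pool.Agent.H200M.few_cube`.)

There are functions with positive values such that the following holds. Let `P 1, …, P s`, `s ≥ 4`, be
very general points of the complex projective plane.

(1) Every plane curve of degree `e` with multiplicities at least `m i` satisfies `V ≤ e ^ 2`,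
`V = ∑_T m i ^ 2`, for all `ε > 0` and all sets `T` of points such that the class `√V H - ∑_T m i E i`
satisfies `Room3 (γ ε) ε`: no curve with these multiplicities has negative self-intersection.

(2) Let `C` be an irreducible curve with `C ^ 2 < 0` which is not a `(-1)`-curve. Then its class is
critical outside three points, and finitely many quadratic transformations carry it to an irreducible curve
of a standard class `(d1; w1)`, `d1 ≤ d`, `w1 i ≤ w i`, `K C > 0`, which is also critical outside three points.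
-/

namespace Pool.Agent.Results.MP_d3e5c7_ag.NegativeThreeArbitrary

open MvPolynomial Pool.Agent.TH167 Pool.Agent.TH167.SHDefs Pool.Agent.Y939.NC Pool.Agent.H200W
open Pool.Agent.H200M
open Pool.Agent.Y536.SH (Standard)
open Pool.Agent.Results.MP_309968_ag.BoundaryRays (MultGE)
open Pool.Agent.Results.MP_309968_ag.SexticDistance (mult_iff)

theorem no_curve {s : ℕ} {P : Fin s → Fin 2 → ℂ} {d : ℕ} {w : Fin s → ℕ}
    {C : MvPolynomial (Fin 3) ℂ} (h0 : C ≠ 0)
    (h1 : C ∈ W609.CR.VS (fun j => W609.CR.aff (P j)) w d) (h8 : SH.chi d w ≤ 0)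
    (h6 : Pool.Agent.H932R3.ExpDim ℂ w P d) : False := by
  rw [Pool.Agent.TH442.NF.expDim_iff] at h6
  have hfin := W609.CR.vs_fin (fun j => W609.CR.aff (P j)) w d
  have hpos : 0 < Module.finrank ℂ ↥(W609.CR.VS (fun j => W609.CR.aff (P j)) w d) :=
    Module.finrank_pos_iff.2 ⟨⟨C, h1⟩, 0, fun h7 => h0 (congrArg Subtype.val h7)⟩
  rw [max_eq_left h8] at h6
  omega

/-- (1) The self-intersection of a curve is nonnegative on sets of points with `Room3`. (2) Negative
curves and their standard forms are critical outside three points. -/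
theorem result : ∃ γ c : ℝ → ℝ, (∀ ε, 0 < ε → 0 < γ ε) ∧ (∀ ε, 0 < ε → 0 < c ε) ∧
    ∀ s : ℕ, 4 ≤ s →
    ∃ Z : ℕ → MvPolynomial (Fin s × Fin 2) ℂ, (∀ n, Z n ≠ 0) ∧
      ∀ P : Fin s → Fin 2 → ℂ,
        (∀ n, MvPolynomial.eval (fun ij : Fin s × Fin 2 => P ij.1 ij.2) (Z n) ≠ 0) →
        (∀ (F : MvPolynomial (Fin 3) ℂ) (e : ℕ) (m : Fin s → ℕ), F.IsHomogeneous e → F ≠ 0 →
          (∀ i, MultGE (P i) F (m i)) → ∀ (ε : ℝ) (T : Finset (Fin s)), 0 < ε →
            Room3 (γ ε) ε (√(∑ i ∈ T, (m i : ℝ) ^ 2)) (fun i => if i ∈ T then (m i : ℝ) else 0) →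
            ∑ i ∈ T, m i ^ 2 ≤ e ^ 2) ∧
        ∀ (d : ℕ) (w : Fin s → ℕ) (C : MvPolynomial (Fin 3) ℂ),
          Curve P C d w → inter d w d w < 0 → ¬ MinusOne P C d w → Tight3 c d w ∧
          ∃ (P1 : Fin s → Fin 2 → ℂ) (d1 : ℕ) (w1 : Fin s → ℕ) (C1 : MvPolynomial (Fin 3) ℂ),
            (∀ n, MvPolynomial.eval (fun ij : Fin s × Fin 2 => P1 ij.1 ij.2) (Z n) ≠ 0) ∧
            Curve P1 C1 d1 w1 ∧ Relation.ReflTransGen Quadratic (d, w) (d1, w1) ∧
            Standard d1 w1 ∧ d1 ≤ d ∧ (∀ i, w1 i ≤ w i) ∧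
            inter d1 w1 d1 w1 = inter d w d w ∧ interK d1 w1 = interK d w ∧
            0 < interK d w ∧ Tight3 c d1 w1 := by
  classical
  obtain ⟨γ, hγ, HN⟩ := nef_room
  obtain ⟨c, hc, H⟩ := tight3_all
  refine ⟨γ, c, hγ, hc, fun s hs => ?_⟩
  obtain ⟨r, rfl⟩ : ∃ r, s = r + 4 := ⟨s - 4, by omega⟩
  obtain ⟨Z, hZ, h⟩ := SH.exists_fam (Fin (r + 4) × Fin 2)
  refine ⟨Z, hZ, fun P hP0 => ?_⟩
  have hP := (h _).1 hP0
  refine ⟨fun F e m hFe hF hm ε T hε hT => ?_, fun d w C hC hneg hne => ?_⟩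
  · obtain ⟨Q, hQ⟩ : ∃ Q : ℝ, Q = ∑ i ∈ T, (m i : ℝ) ^ 2 := ⟨_, rfl⟩
    have hQ0 : 0 ≤ Q := by rw [hQ]; positivity
    have e1 : ∑ i, (if i ∈ T then (m i : ℝ) else 0) ^ 2 = Q := by
      rw [hQ, ← Finset.sum_filter_add_sum_filter_not Finset.univ (fun i => i ∈ T)]
      rw [Finset.sum_congr (g := fun i => (m i : ℝ) ^ 2) rfl (fun i hi => by
        rw [if_pos (Finset.mem_filter.1 hi).2])]
      rw [Finset.sum_eq_zero (s := Finset.univ.filter fun i => ¬ (i ∈ T)) (fun i hi => by
        rw [if_neg (Finset.mem_filter.1 hi).2]; norm_num), add_zero]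
      congr 1
      ext i
      simp
    have e2 : ∑ i, (if i ∈ T then (m i : ℝ) else 0) * (m i : ℝ) = Q := by
      rw [← e1]
      refine Finset.sum_congr rfl fun i _ => ?_
      split_ifs <;> ring
    have h1 := HN ε hε hP _ _ hT (by rw [← hQ, Real.sq_sqrt hQ0, e1]) F e m hF hFe
      ((mult_iff hFe m).1 hm)
    rw [← hQ, e2] at h1
    have h2 : √Q * √Q = Q := Real.mul_self_sqrt hQ0
    have h3 : Q ≤ (e : ℝ) ^ 2 := by
      rcases (Real.sqrt_nonneg Q).eq_or_lt with h4 | h4
      · rw [← h4, mul_zero] at h2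
        rw [← h2]
        positivity
      · have h5 : √Q * √Q ≤ √Q * e := by rw [h2]; exact h1
        have h6 := le_of_mul_le_mul_left h5 h4
        calc Q = √Q ^ 2 := by rw [pow_two, h2]
          _ ≤ _ := pow_le_pow_left₀ h4.le h6 2
    rw [hQ] at h3
    exact_mod_cast h3
  · obtain ⟨h1, h2, h3⟩ := SH.curve_iff.1 hC
    have hne' : ¬ (SH.ip d w d w = -1 ∧ SH.kk d w = 1) := fun h0 =>
      hne ⟨hC, by rw [SH.inter_eq, h0.1], by rw [SH.interK_eq, h0.2]⟩
    obtain ⟨M, hM⟩ : ∃ M, ∀ j, w j ≤ M := ⟨∑ j, w j, fun j =>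
      Finset.single_le_sum (fun _ _ => Nat.zero_le _) (Finset.mem_univ j)⟩
    have hw : SH.Few M d w := by
      left
      rw [Finset.filter_false_of_mem fun j _ => not_lt.2 (hM j)]
      simp
    obtain ⟨P1, d1, w1, C1, a1, a2, a3, a4, a5, a6, a7, a8⟩ :=
      Pool.Agent.Y939.NC.std_irr d P hP w hw C h1 h2 h3 hne'
    obtain ⟨c1, c2, c3⟩ := SH.quad_inv a5
    simp only at c1 c2 c3
    rw [SH.inter_eq] at hneg
    have hwd : ∀ j, w1 j ≤ d1 := fun j => SH.van_le a2.ne_zero a3 (a4 j).1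
    have hK : SH.kk d1 w1 < 0 := by
      by_contra hcon
      push Not at hcon
      have h4 : 0 ≤ SH.kk d1 w1 := hcon
      rw [SH.kk_cast] at h4
      have h5 := SH.red_ip a6 hwd (by omega)
      omega
    have h7 := SH.two_chi d1 w1
    have h8 : SH.chi d1 w1 ≤ 0 := by omega
    have h7' := SH.two_chi d w
    have h8' : SH.chi d w ≤ 0 := by omega
    refine ⟨by_contra fun hcon => no_curve h1.ne_zero
      ((SH.mem_VS _ _ _ _).2 ⟨h2, fun j => (h3 j).1⟩) h8' (H w hcon hP), P1, d1, w1, C1, (h _).2 a1, SH.curve_iff.2 ⟨a2, a3, a4⟩,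
      SH.chain_conv a5, a6, a7, a8,
      by rw [SH.inter_eq, SH.inter_eq, c3], by rw [SH.interK_eq, SH.interK_eq, c2], ?_,
      by_contra fun hcon => no_curve a2.ne_zero
        ((SH.mem_VS _ _ _ _).2 ⟨a3, fun j => (a4 j).1⟩) h8 (H w1 hcon a1)⟩
    rw [SH.interK_eq, ← c2]
    omega

end Pool.Agent.Results.MP_d3e5c7_ag.NegativeThreeArbitrary
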